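import Mathlib

set_option autoImplicit false

namespace Pool.Agent.Results.MP_d52620_an.Dihedral

open Filter Topology MeasureTheory DihedralGroup

/-- Amenability of a discrete group, by the Foelner condition. -/
def Amenable (G : Type) [Group G] : Prop :=
  ∀ (K : Finset G) (ε : ℝ), 0 < ε → ∃ F : Set G, F.Finite ∧ F.Nonempty ∧
    ∀ g ∈ K, ((((fun x => g * x) '' F) \ F).ncard : ℝ) ≤ ε * F.ncard

abbrev D : Type := DihedralGroup 0
abbrev M : Type := Bool × UnitAddCircle

def idx : D → ℤ
  | r i => i
  | sr i => i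

def flip : D → Bool → Bool
  | r _ => id
  | sr _ => not

def sg : Bool → ℤ
  | true => 1
  | false => -1

def co (g : D) (x : Bool) : ℤ := idx g * sg x

lemma sg_not (x : Bool) : sg (!x) = - sg x := by cases x <;> rfl

lemma flip_mul (g h : D) (x : Bool) : flip (g * h) x = flip g (flip h x) := by
  rcases g with i | i <;> rcases h with j | j <;> simp [flip]

lemma co_mul (g h : D) (x : Bool) : co (g * h) x = co g (flip h x) + co h x := by
  rcases g with i | i <;> rcases h with j | j
  · change (show ℤ from i + j) * sg x = (show ℤ from i) * sg x + (show ℤ from j) * sg x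
    exact add_mul (show ℤ from i) (show ℤ from j) (sg x)
  · change ((show ℤ from j) - (show ℤ from i)) * sg x =
      (show ℤ from i) * sg (!x) + (show ℤ from j) * sg x
    rw [sg_not]; ring
  · change ((show ℤ from i) + (show ℤ from j)) * sg x =
      (show ℤ from i) * sg x + (show ℤ from j) * sg x
    ring
  · change ((show ℤ from j) - (show ℤ from i)) * sg x =
      (show ℤ from i) * sg (!x) + (show ℤ from j) * sg x
    rw [sg_not]; ring

noncomputable def θ : UnitAddCircle := ((Real.sqrt 2 : ℝ) : UnitAddCircle)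

noncomputable def act (g : D) (p : M) : M := (flip g p.1, p.2 + co g p.1 • θ)

lemma act_one (p : M) : act 1 p = p := by
  have : co 1 p.1 = 0 := by
    change (0 : ℤ) * _ = 0
    simp
  ext
  · rfl
  · simp [act, this]

lemma act_mul (g h : D) (p : M) : act (g * h) p = act g (act h p) := by
  simp only [act, flip_mul, co_mul, add_smul]
  ext
  · rfl
  · simp only; abel

lemma cont_bool {Y : Type} [TopologicalSpace Y] (f : Bool → Y) : Continuous fun p : M => f p.1 :=
  (continuous_of_discreteTopology (f := f)).comp continuous_fst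

lemma act_cont (g : D) : Continuous (act g) :=
  (cont_bool (flip g)).prodMk (continuous_snd.add (cont_bool fun x => co g x • θ))

noncomputable def α : D →* (M ≃ₜ M) where
  toFun g :=
    { toFun := act g
      invFun := act g⁻¹
      left_inv := fun p => by rw [← act_mul, inv_mul_cancel, act_one]
      right_inv := fun p => by rw [← act_mul, mul_inv_cancel, act_one]
      continuous_toFun := act_cont g
      continuous_invFun := act_cont g⁻¹ }
  map_one' := by ext1 p; exact act_one p
  map_mul' g h := by ext1 p; exact act_mul g h p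

noncomputable def cc (g : D) : C(M, ℝ) := ⟨fun p => (co g p.1 : ℝ), cont_bool fun x => (co g x : ℝ)⟩

lemma dense_θ : DenseRange fun n : ℤ => n • θ := by
  unfold θ
  rw [AddCircle.denseRange_zsmul_coe_iff]
  simpa using irrational_sqrt_two

lemma θ_free {n : ℤ} (h : n • θ = 0) : n = 0 := by
  by_contra hn
  unfold θ at h
  rw [← AddCircle.coe_zsmul, AddCircle.coe_eq_zero_iff] at h
  obtain ⟨m, hm⟩ := h
  apply irrational_sqrt_two
  refine ⟨(m : ℚ) / n, ?_⟩
  have : (n : ℝ) ≠ 0 := by exact_mod_cast hn
  push_cast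
  rw [div_eq_iff this]
  simp at hm
  linarith

lemma amen : Amenable D := by
  classical
  intro K ε hε
  obtain ⟨B, hB⟩ : ∃ B : ℕ, ∀ g ∈ K, |idx g| ≤ B := by
    refine ⟨K.sup fun g => (idx g).natAbs, fun g hg => ?_⟩
    have := Finset.le_sup (f := fun g => (idx g).natAbs) hg
    rw [Int.abs_eq_natAbs]
    exact_mod_cast this
  obtain ⟨N, hN⟩ := exists_nat_gt (4 * (B : ℝ) / ε)
  let R : ℤ → D := fun i => r i
  let S : ℤ → D := fun i => sr i
  have hsub : ∀ A : Finset ℤ, {g : D | idx g ∈ A} = R '' A ∪ S '' A := by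
    intro A
    ext g
    rcases g with i | i <;> simp [idx, R, S]
  have hfin : ∀ A : Finset ℤ, {g : D | idx g ∈ A}.Finite := fun A => by
    rw [hsub]; exact (A.finite_toSet.image _).union (A.finite_toSet.image _)
  refine ⟨{g | idx g ∈ Finset.Icc (-(N : ℤ)) N}, hfin _, ⟨r 0, ?_⟩, fun g hg => ?_⟩
  · change (0 : ℤ) ∈ Finset.Icc (-(N : ℤ)) N
    simp
  · have h1 : ((fun x => g * x) '' {g | idx g ∈ Finset.Icc (-(N : ℤ)) N}) \
        {g | idx g ∈ Finset.Icc (-(N : ℤ)) N} ⊆
        {g | idx g ∈ Finset.Ico (-(N : ℤ) - B) (-N) ∪ Finset.Ioc (N : ℤ) (N + B)} := by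
      rintro _ ⟨⟨h, hh, rfl⟩, hn⟩
      have hb := abs_le.1 (hB g hg)
      have e : idx (g * h) = idx h + idx g ∨ idx (g * h) = idx h - idx g := by
        rcases g with i | i <;> rcases h with j | j
        · left; exact add_comm (show ℤ from i) (show ℤ from j)
        · right; rfl
        · left; exact add_comm (show ℤ from i) (show ℤ from j)
        · right; rfl
      simp only [Set.mem_setOf_eq, Finset.mem_Icc, Finset.mem_union, Finset.mem_Ico,
        Finset.mem_Ioc] at hh hn ⊢
      omega
    have h2 := Set.ncard_le_ncard h1 (hfin _)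
    have h3 : {g : D | idx g ∈ Finset.Ico (-(N : ℤ) - B) (-N) ∪ Finset.Ioc (N : ℤ) (N + B)}.ncard
        ≤ 4 * B := by
      rw [hsub]
      refine (Set.ncard_union_le _ _).trans ?_
      have a1 := Set.ncard_image_le (f := R)
        (Finset.Ico (-(N : ℤ) - B) (-N) ∪ Finset.Ioc (N : ℤ) (N + B)).finite_toSet
      have a2 := Set.ncard_image_le (f := S)
        (Finset.Ico (-(N : ℤ) - B) (-N) ∪ Finset.Ioc (N : ℤ) (N + B)).finite_toSet
      rw [Set.ncard_coe_finset] at a1 a2
      have a3 := Finset.card_union_le (Finset.Ico (-(N : ℤ) - B) (-N)) (Finset.Ioc (N : ℤ) (N + B))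
      rw [Int.card_Ico, Int.card_Ioc] at a3
      omega
    have h4 : N ≤ {g : D | idx g ∈ Finset.Icc (-(N : ℤ)) N}.ncard := by
      have hR : Function.Injective R := fun i j hij => by
        have := congrArg idx hij
        exact this
      have a1 : R '' (Finset.Icc (-(N : ℤ)) N) ⊆ {g : D | idx g ∈ Finset.Icc (-(N : ℤ)) N} := by
        rw [hsub]; exact Set.subset_union_left
      have a2 := Set.ncard_le_ncard a1 (hfin _)
      rw [Set.ncard_image_of_injective _ hR, Set.ncard_coe_finset, Int.card_Icc] at a2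
      omega
    have h5 : (N : ℝ) ≤ ({g : D | idx g ∈ Finset.Icc (-(N : ℤ)) N}.ncard : ℝ) := by
      exact_mod_cast h4
    have h6 := h2.trans h3
    have h7 : (4 * B : ℝ) ≤ ε * N := by
      rw [div_lt_iff₀ hε] at hN; linarith
    calc _ ≤ ((4 * B : ℕ) : ℝ) := by exact_mod_cast h6
      _ ≤ ε * N := by push_cast; exact h7
      _ ≤ _ := by gcongr

theorem result : ∃ (G : Type) (_ : Group G) (S : Finset G) (M : Type) (_ : MetricSpace M)
    (_ : CompactSpace M) (_ : MeasurableSpace M) (_ : BorelSpace M) (α : G →* (M ≃ₜ M))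
    (c : G → C(M, ℝ)),
    Amenable G ∧ Subgroup.closure (S : Set G) = ⊤ ∧ (∀ s ∈ S, s⁻¹ ∈ S) ∧ 1 ∉ S ∧
    (∀ g x, α g x = x → g = 1) ∧ (∀ x, DenseRange fun g => α g x) ∧
    (∀ g h x, c (g * h) x = c g (α h x) + c h x) ∧
    (∀ μ : Measure M, IsProbabilityMeasure μ → (∀ g, μ.map (α g) = μ) →
      ∀ g, ∫ x, c g x ∂μ = 0) ∧
    ∀ u : C(M, ℝ), ∃ s ∈ S, ∃ x, 1 ≤ |c s x - (u (α s x) - u x)| := by
  classical
  refine ⟨D, inferInstance, {r 1, r (-1), sr 0}, M, TopologicalSpace.metrizableSpaceMetric M,
    (inferInstance : CompactSpace M), borel M, @BorelSpace.mk _ _ (borel M) rfl, α, cc, amen, ?_, ?_, ?_, ?_, ?_, ?_, ?_, ?_⟩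
  · rw [eq_top_iff]
    have h1 : ∀ i : ℤ, (r i : D) ∈ Subgroup.closure (({r 1, r (-1), sr 0} : Finset D) : Set D) := by
      intro i
      have := Subgroup.zpow_mem _ (Subgroup.subset_closure
        (k := (({r 1, r (-1), sr 0} : Finset D) : Set D)) (show r 1 ∈ _ by simp)) i
      rw [r_one_zpow] at this
      exact this
    rintro (i | i) -
    · exact h1 i
    · have := Subgroup.mul_mem _ (Subgroup.subset_closure
        (k := (({r 1, r (-1), sr 0} : Finset D) : Set D)) (show sr 0 ∈ _ by simp)) (h1 i)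
      simpa using this
  · intro s hs
    simp only [Finset.mem_insert, Finset.mem_singleton] at hs ⊢
    rcases hs with rfl | rfl | rfl <;> simp
  · simp only [Finset.mem_insert, Finset.mem_singleton, one_def]
    rintro (h | h | h)
    · have : (0 : ℤ) = 1 := congrArg idx h
      omega
    · have : (0 : ℤ) = -1 := congrArg idx h
      omega
    · cases h
  · rintro (i | i) ⟨x, t⟩ h
    · have h2 : t + co (r i) x • θ = t := congrArg Prod.snd h
      have h3 := θ_free (by simpa using h2)
      have h4 : idx (r i) = 0 := by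
        unfold co at h3
        cases x <;> simpa [sg] using h3
      have h5 : i = 0 := h4
      rw [h5]; rfl
    · have h2 : (!x) = x := congrArg Prod.fst h
      cases x <;> simp at h2
  · rintro ⟨x, t⟩ ⟨y, s⟩
    have hd : DenseRange fun n : ℤ => t + n • θ :=
      ((Homeomorph.addLeft t).surjective.denseRange).comp dense_θ (by fun_prop)
    have hc : Continuous fun z : UnitAddCircle => ((y, z) : M) := by fun_prop
    have h1 : ((y, s) : M) ∈ closure ((fun z : UnitAddCircle => ((y, z) : M)) ''
        Set.range fun n : ℤ => t + n • θ) :=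
      image_closure_subset_closure_image hc ⟨s, hd s, rfl⟩
    refine closure_mono ?_ h1
    rintro _ ⟨_, ⟨n, rfl⟩, rfl⟩
    have hs : n * sg x * sg x = n := by cases x <;> simp [sg]
    by_cases hxy : y = x
    · refine ⟨r (show ℤ from n * sg x), ?_⟩
      change ((x, t + (n * sg x * sg x) • θ) : M) = _
      rw [hs, hxy]
    · refine ⟨sr (show ℤ from n * sg x), ?_⟩
      change ((!x, t + (n * sg x * sg x) • θ) : M) = _
      rw [hs]
      have : (!x) = y := by cases x <;> cases y <;> simp_all
      rw [this]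
  · intro g h x
    change ((co (g * h) x.1 : ℤ) : ℝ) = (co g (flip h x.1) : ℤ) + (co h x.1 : ℤ)
    rw [co_mul]; push_cast; rfl
  · intro μ hμ hinv g
    letI : MeasurableSpace M := borel M
    haveI : BorelSpace M := @BorelSpace.mk _ _ (borel M) rfl
    have hc : Continuous fun p : M => (sg p.1 : ℝ) := cont_bool fun x => (sg x : ℝ)
    have h1 : ∫ p, (sg p.1 : ℝ) ∂μ = - ∫ p, (sg p.1 : ℝ) ∂μ := by
      conv_lhs => rw [← hinv (sr 0)]
      rw [integral_map (α (sr 0)).continuous.measurable.aemeasurable hc.aestronglyMeasurable,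
        ← integral_neg]
      congr 1
      funext p
      change ((sg (!p.1) : ℤ) : ℝ) = _
      rw [sg_not]; push_cast; rfl
    have h2 : ∫ p, (sg p.1 : ℝ) ∂μ = 0 := by linarith
    have h3 : (fun p : M => cc g p) = fun p => (idx g : ℝ) * (sg p.1 : ℝ) := by
      funext p
      change ((idx g * sg p.1 : ℤ) : ℝ) = _
      push_cast; rfl
    rw [h3, integral_const_mul, h2, mul_zero]
  · intro u
    refine ⟨r 1, by simp, ?_⟩
    obtain ⟨p, hp1, hp⟩ := (isClosed_singleton (x := true)).preimage
      (continuous_fst (X := Bool) (Y := UnitAddCircle)) |>.isCompact.exists_isMaxOn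
      ⟨(true, 0), rfl⟩ u.continuous.continuousOn
    refine ⟨p, le_trans ?_ (le_abs_self _)⟩
    have h1 : p.1 = true := hp1
    have h2 : u (α (r 1) p) ≤ u p := hp (show (α (r 1) p).1 ∈ ({true} : Set Bool) from hp1)
    have h3 : cc (r 1) p = 1 := by
      change (((1 : ℤ) * sg p.1 : ℤ) : ℝ) = 1
      rw [h1]; simp [sg]
    rw [h3]; linarith

end Pool.Agent.Results.MP_d52620_an.Dihedral
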